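import Pool.Agent.H28.MCL.Targets

/-!
Row SUB of the board `mlc_modules`: decomposition of a long window into short windows.
-/

set_option autoImplicit false

open Finset Filter

namespace Pool.Agent.H98.MCL

open Pool.Agent.H28.MCL

/-- the restriction of `f` to the class `a` -/
noncomputable def ph (f : ℕ → ℝ) (W a m : ℕ) : ℝ := if m ≡ a [MOD W] then f m else 0

/-- the sum of `φ` over `(n, n + h]` -/
noncomputable def wi (φ : ℕ → ℝ) (n h : ℕ) : ℝ := ∑ i ∈ range h, φ (n + 1 + i)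

lemma ws_eq (f : ℕ → ℝ) (W a n h : ℕ) : ws f W a n h = wi (ph f W a) n h := by
  unfold ws wi
  rw [Finset.sum_filter]
  have h1 : Finset.Ioc n (n + h) = Finset.Ico (n + 1) (n + 1 + h) := by
    ext x
    simp only [Finset.mem_Ioc, Finset.mem_Ico]
    omega
  rw [h1, Finset.sum_Ico_eq_sum_range]
  have h2 : n + 1 + h - (n + 1) = h := by omega
  rw [h2]
  rfl

lemma ph_le {f : ℕ → ℝ} (hf : ∀ y, |f y| ≤ 1) (W a m : ℕ) : |ph f W a m| ≤ 1 := by
  unfold ph
  split_ifs
  · exact hf m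
  · simp

lemma wi_succ (φ : ℕ → ℝ) (n T : ℕ) : wi φ (n + 1) T - wi φ n T = φ (n + 1 + T) - φ (n + 1) := by
  have h1 : wi φ n (T + 1) = wi φ n T + φ (n + 1 + T) := by
    unfold wi
    rw [Finset.sum_range_succ]
  have h2 : wi φ n (T + 1) = wi φ (n + 1) T + φ (n + 1) := by
    unfold wi
    rw [Finset.sum_range_succ']
    congr 1
    refine Finset.sum_congr rfl fun i _ => ?_
    congr 1
    omega
  linarith

lemma wi_shift {φ : ℕ → ℝ} (hφ : ∀ m, |φ m| ≤ 1) (n T : ℕ) :
    ∀ d : ℕ, |wi φ (n + d) T - wi φ n T| ≤ 2 * d := by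
  intro d
  induction d with
  | zero => simp
  | succ d ih =>
    have h1 := wi_succ φ (n + d) T
    have h2 := hφ (n + d + 1 + T)
    have h3 := hφ (n + d + 1)
    have h4 : wi φ (n + (d + 1)) T - wi φ n T =
        (φ (n + d + 1 + T) - φ (n + d + 1)) + (wi φ (n + d) T - wi φ n T) := by
      rw [← h1]
      have : n + (d + 1) = n + d + 1 := by omega
      rw [this]
      ring
    rw [h4]
    push_cast
    rw [abs_le] at *
    constructor <;> linarith [h2.1, h2.2, h3.1, h3.2, ih.1, ih.2]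

lemma wi_comm (φ : ℕ → ℝ) (n T h : ℕ) :
    ∑ s ∈ range T, wi φ (n + 1 + s) h = ∑ i ∈ range h, wi φ (n + 1 + i) T := by
  unfold wi
  rw [Finset.sum_comm]
  refine Finset.sum_congr rfl fun i _ => Finset.sum_congr rfl fun s _ => ?_
  congr 1
  omega

lemma ws_le {f : ℕ → ℝ} (hf : ∀ y, |f y| ≤ 1) (W a n h : ℕ) :
    |ws f W a n h| ≤ h / W + 1 := by
  have h1 : |ws f W a n h| ≤ ∑ m ∈ (Finset.Ioc n (n + h)).filter (fun m => m ≡ a [MOD W]),
      (1 : ℝ) := by
    unfold ws
    exact (Finset.abs_sum_le_sum_abs _ _).trans (Finset.sum_le_sum fun m _ => hf m)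
  refine h1.trans ?_
  rw [Finset.sum_const, nsmul_eq_mul, mul_one]
  exact Pool.Agent.H27.T2.card_window_le W h n a

theorem sub : T_SUB := by
  intro f κ W a h n T hf hW hh hκ hκ1
  have hWr : (0 : ℝ) < W := by exact_mod_cast hW
  have hhr : (0 : ℝ) < h := by exact_mod_cast hh
  -- the short windows
  have hs : ∀ k, |ws f W a k h| ≤ (1 - κ) * h / W + (κ * h / W + 1) * ind (Bad f κ W a h) k := by
    intro k
    by_cases hb : Bad f κ W a h k
    · have h1 : ind (Bad f κ W a h) k = 1 := if_pos hb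
      rw [h1]
      have h2 := ws_le hf W a k h
      have h3 : (h : ℝ) / W + 1 = (1 - κ) * h / W + (κ * h / W + 1) * 1 := by
        ring
      rw [← h3]
      exact h2
    · have h1 : ind (Bad f κ W a h) k = 0 := if_neg hb
      rw [h1, mul_zero, add_zero, le_div_iff₀ hWr, mul_comm]
      exact not_lt.1 hb
  -- the double sum
  have h1 : |(h : ℝ) * ws f W a n T - ∑ s ∈ range T, ws f W a (n + 1 + s) h| ≤ 2 * h * h := by
    have e1 : ∑ s ∈ range T, ws f W a (n + 1 + s) h =
        ∑ i ∈ range h, wi (ph f W a) (n + 1 + i) T := by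
      rw [← wi_comm]
      exact Finset.sum_congr rfl fun s _ => ws_eq f W a _ h
    have e2 : (h : ℝ) * ws f W a n T = ∑ i ∈ range h, wi (ph f W a) n T := by
      rw [Finset.sum_const, card_range, nsmul_eq_mul, ws_eq]
    rw [e1, e2, ← Finset.sum_sub_distrib]
    refine (Finset.abs_sum_le_sum_abs _ _).trans ?_
    have h2 : ∀ i ∈ range h, |wi (ph f W a) n T - wi (ph f W a) (n + 1 + i) T| ≤ 2 * (h : ℝ) := by
      intro i hi
      rw [mem_range] at hi
      rw [abs_sub_comm]
      have h3 := wi_shift (ph_le hf W a) n T (1 + i)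
      rw [← add_assoc] at h3
      refine h3.trans ?_
      have : ((1 + i : ℕ) : ℝ) ≤ h := by exact_mod_cast (by omega : 1 + i ≤ h)
      linarith
    refine (Finset.sum_le_sum h2).trans ?_
    rw [Finset.sum_const, card_range, nsmul_eq_mul]
    apply le_of_eq
    ring
  have h2 : |∑ s ∈ range T, ws f W a (n + 1 + s) h| ≤
      T * ((1 - κ) * h / W) + (κ * h / W + 1) *
        ∑ s ∈ Finset.Icc 1 T, ind (Bad f κ W a h) (n + s) := by
    refine (Finset.abs_sum_le_sum_abs _ _).trans ?_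
    refine (Finset.sum_le_sum fun s _ => hs (n + 1 + s)).trans ?_
    rw [Finset.sum_add_distrib, Finset.sum_const, card_range, nsmul_eq_mul, ← Finset.mul_sum]
    have e3 : ∑ s ∈ Finset.Icc 1 T, ind (Bad f κ W a h) (n + s) =
        ∑ s ∈ range T, ind (Bad f κ W a h) (n + 1 + s) := by
      have e4 : Finset.Icc 1 T = Finset.Ico 1 (1 + T) := by
        ext x
        simp only [Finset.mem_Icc, Finset.mem_Ico]
        omega
      rw [e4, Finset.sum_Ico_eq_sum_range]
      have e5 : 1 + T - 1 = T := by omega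
      rw [e5]
      refine Finset.sum_congr rfl fun i _ => ?_
      rw [← add_assoc]
    rw [e3]
  have h3 : (h : ℝ) * |ws f W a n T| ≤ T * ((1 - κ) * h / W) + (κ * h / W + 1) *
      ∑ s ∈ Finset.Icc 1 T, ind (Bad f κ W a h) (n + s) + 2 * h * h := by
    have e6 : (h : ℝ) * |ws f W a n T| = |(h : ℝ) * ws f W a n T| := by
      rw [abs_mul, abs_of_pos hhr]
    rw [e6]
    have e7 := abs_sub_abs_le_abs_sub ((h : ℝ) * ws f W a n T)
      (∑ s ∈ range T, ws f W a (n + 1 + s) h)
    linarith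
  have h4 : |ws f W a n T| ≤ (T * ((1 - κ) * h / W) + (κ * h / W + 1) *
      ∑ s ∈ Finset.Icc 1 T, ind (Bad f κ W a h) (n + s) + 2 * h * h) / h := by
    rw [le_div_iff₀ hhr, mul_comm]
    exact h3
  refine h4.trans ?_
  have h5 : (T * ((1 - κ) * h / W) + (κ * h / W + 1) *
      ∑ s ∈ Finset.Icc 1 T, ind (Bad f κ W a h) (n + s) + 2 * h * h) / h =
      (T : ℝ) / W * (1 - κ) + (κ / W + 1 / h) *
        ∑ s ∈ Finset.Icc 1 T, ind (Bad f κ W a h) (n + s) + 2 * h := by
    field_simp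
  rw [h5]
  linarith

end Pool.Agent.H98.MCL
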